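import Pool.Agent.N637.SLM.Stm5
import Pool.Agent.N570.SLX.Avg

/-! # SLA/ALT4: the second moment of the number of the elements of the kernel of a random alternating
matrix over the field with two elements -/

set_option autoImplicit false
set_option linter.unusedVariables false

open scoped Classical

namespace Pool.Agent.N228.SLA

open Finset
open Pool.Agent.N637.SLX (alt Alt)
open Pool.Agent.N916.GB (ps sx pt)
open Pool.Agent.N222.SLX.Eqs (ch ch_sum ch_add fourier sx_self sx_lt sx_gt sx_symm sum_pairs card_ps_fin mem_ps ch_zero two0)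
open Pool.Agent.N570.SLX (Ke AL alt_sum AL_sum AL_card)

variable {n : ℕ}

/-- the wedge equation for `(μ, ν)` -/
def Wq (x y μ ν : Fin n → ZMod 2) (i j : Fin n) : ZMod 2 :=
  μ i * x j + μ j * x i + (ν i * y j + ν j * y i)

theorem Wq_self (x y μ ν : Fin n → ZMod 2) (i : Fin n) : Wq x y μ ν i i = 0 := by
  unfold Wq
  linear_combination (μ i * x i + ν i * y i) * two0

theorem Wq_symm (x y μ ν : Fin n → ZMod 2) (i j : Fin n) : Wq x y μ ν i j = Wq x y μ ν j i := by
  unfold Wq
  ring

/-- the solutions of the wedge equation -/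
noncomputable def WS (x y : Fin n → ZMod 2) : Finset ((Fin n → ZMod 2) × (Fin n → ZMod 2)) :=
  univ.filter fun p => ∀ e : ps (Fin n), Wq x y p.1 p.2 e.1.1 e.1.2 = 0

theorem mem_WS (x y : Fin n → ZMod 2) (p : (Fin n → ZMod 2) × (Fin n → ZMod 2)) :
    p ∈ WS x y ↔ ∀ i j, Wq x y p.1 p.2 i j = 0 := by
  unfold WS
  rw [mem_filter]
  constructor
  · rintro ⟨-, h⟩ i j
    rcases lt_trichotomy i j with hij | hij | hij
    · exact h ⟨(i, j), (mem_ps _).2 hij⟩
    · rw [hij]; exact Wq_self _ _ _ _ j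
    · rw [Wq_symm]; exact h ⟨(j, i), (mem_ps _).2 hij⟩
  · intro h
    exact ⟨mem_univ _, fun e => h _ _⟩

/-- the number of the alternating matrices with two given vectors in the kernel -/
theorem AL_two (x y : Fin n → ZMod 2) :
    ((AL n).filter fun M => x ∈ Ke M ∧ y ∈ Ke M).card * 4 ^ n =
      2 ^ (n * (n - 1) / 2) * (WS x y).card := by
  have h1 : (((AL n).filter fun M => x ∈ Ke M ∧ y ∈ Ke M).card : ℤ) =
      ∑ σ : ps (Fin n) → ZMod 2, (if ∀ a, ∑ b, sx σ a b * x b = 0 then 1 else 0) *
        (if ∀ a, ∑ b, sx σ a b * y b = 0 then 1 else 0) := by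
    rw [card_filter]
    push_cast
    rw [AL_sum]
    refine sum_congr rfl fun σ _ => ?_
    simp only [Ke, mem_filter, mem_univ, true_and]
    by_cases h1 : ∀ a, ∑ b, sx σ a b * x b = 0 <;> by_cases h2 : ∀ a, ∑ b, sx σ a b * y b = 0 <;>
      simp [h1, h2]
  have h2 : (((AL n).filter fun M => x ∈ Ke M ∧ y ∈ Ke M).card : ℤ) * 4 ^ n =
      ∑ σ : ps (Fin n) → ZMod 2, ∑ p : (Fin n → ZMod 2) × (Fin n → ZMod 2),
        ch (∑ a, p.1 a * ∑ b, sx σ a b * x b) * ch (∑ a, p.2 a * ∑ b, sx σ a b * y b) := by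
    rw [h1, sum_mul]
    refine sum_congr rfl fun σ _ => ?_
    rw [← univ_product_univ, sum_product]
    simp only [← mul_sum, ← sum_mul]
    rw [fourier (fun a => ∑ b, sx σ a b * x b), fourier (fun a => ∑ b, sx σ a b * y b),
      Fintype.card_fin]
    have h4 : (4 : ℤ) ^ n = 2 ^ n * 2 ^ n := by
      rw [← mul_pow]; norm_num
    rw [h4]
    split_ifs <;> simp
  have h3 : ∀ (μ z : Fin n → ZMod 2) (σ : ps (Fin n) → ZMod 2),
      ∑ a, μ a * ∑ b, sx σ a b * z b =
      ∑ e : ps (Fin n), σ e * (μ e.1.1 * z e.1.2 + μ e.1.2 * z e.1.1) := by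
    intro μ z σ
    have h4 : ∑ a, μ a * ∑ b, sx σ a b * z b = ∑ a, ∑ b, μ a * (sx σ a b * z b) := by
      simp only [mul_sum]
    rw [h4, sum_pairs]
    · refine sum_congr rfl fun e _ => ?_
      rw [sx_lt, sx_gt]
      ring
    · intro k
      rw [sx_self]
      ring
  have h5 : ∀ (σ : ps (Fin n) → ZMod 2) (p : (Fin n → ZMod 2) × (Fin n → ZMod 2)),
      ch (∑ a, p.1 a * ∑ b, sx σ a b * x b) * ch (∑ a, p.2 a * ∑ b, sx σ a b * y b) =
      ch (∑ e : ps (Fin n), σ e * Wq x y p.1 p.2 e.1.1 e.1.2) := by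
    intro σ p
    rw [← ch_add, h3, h3, ← sum_add_distrib]
    congr 1
    refine sum_congr rfl fun e _ => ?_
    unfold Wq
    ring
  have h6 : (((AL n).filter fun M => x ∈ Ke M ∧ y ∈ Ke M).card : ℤ) * 4 ^ n =
      2 ^ (n * (n - 1) / 2) * (WS x y).card := by
    rw [h2, sum_comm]
    simp only [h5]
    have h7 : ∀ p : (Fin n → ZMod 2) × (Fin n → ZMod 2), ∑ σ : ps (Fin n) → ZMod 2,
        ch (∑ e : ps (Fin n), σ e * Wq x y p.1 p.2 e.1.1 e.1.2) =
        if ∀ e : ps (Fin n), Wq x y p.1 p.2 e.1.1 e.1.2 = 0 then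
          2 ^ (n * (n - 1) / 2) else 0 := by
      intro p
      rw [fourier (fun e : ps (Fin n) => Wq x y p.1 p.2 e.1.1 e.1.2), Fintype.card_coe,
        card_ps_fin]
    simp only [h7]
    rw [← sum_filter]
    change ∑ _p ∈ WS x y, (2 : ℤ) ^ (n * (n - 1) / 2) = _
    rw [sum_const, nsmul_eq_mul, mul_comm]
  exact_mod_cast h6

/-! ### the number of the solutions -/

theorem zo (z : ZMod 2) : z = 0 ∨ z = 1 := by
  revert z
  decide

theorem card_fn : (univ : Finset (Fin n → ZMod 2)).card = 2 ^ n := by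
  rw [card_univ, Fintype.card_fun, Fintype.card_fin, ZMod.card]

theorem WS_zero : (WS (0 : Fin n → ZMod 2) 0).card = 4 ^ n := by
  have : WS (0 : Fin n → ZMod 2) 0 = univ := by
    ext p
    rw [mem_WS]
    simp [Wq]
  rw [this, ← univ_product_univ, card_product, card_fn, ← mul_pow]
  norm_num

/-- one vector -/
theorem one_vec {x μ : Fin n → ZMod 2} (hx : x ≠ 0) :
    (∀ i j, μ i * x j + μ j * x i = 0) ↔ μ = 0 ∨ μ = x := by
  obtain ⟨b, hb⟩ : ∃ b, x b ≠ 0 := by
    by_contra h
    push Not at h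
    exact hx (funext h)
  have hb1 : x b = 1 := (zo (x b)).resolve_left hb
  constructor
  · intro h
    have h7 : ∀ k, μ k = μ b * x k := by
      intro k
      have := h k b
      rw [hb1, mul_one] at this
      linear_combination this - μ b * x k * two0
    rcases zo (μ b) with h8 | h8
    · left; funext k; rw [h7 k, h8, zero_mul]; rfl
    · right; funext k; rw [h7 k, h8, one_mul]
  · rintro (rfl | rfl) i j
    · simp
    · linear_combination μ i * μ j * two0

theorem card_pair_zero {x : Fin n → ZMod 2} (hx : x ≠ 0) : ({0, x} : Finset (Fin n → ZMod 2)).card = 2 :=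
  card_pair (Ne.symm hx)

theorem WS_left {x : Fin n → ZMod 2} (hx : x ≠ 0) : (WS x 0).card = 2 * 2 ^ n := by
  have : WS x 0 = ({0, x} : Finset (Fin n → ZMod 2)) ×ˢ univ := by
    ext p
    rw [mem_WS, mem_product, mem_insert, mem_singleton, ← one_vec hx]
    simp [Wq]
  rw [this, card_product, card_pair_zero hx, card_fn]

theorem WS_right {y : Fin n → ZMod 2} (hy : y ≠ 0) : (WS 0 y).card = 2 * 2 ^ n := by
  have : WS 0 y = univ ×ˢ ({0, y} : Finset (Fin n → ZMod 2)) := by
    ext p
    rw [mem_WS, mem_product, mem_insert, mem_singleton, ← one_vec hy]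
    simp [Wq]
  rw [this, card_product, card_pair_zero hy, card_fn, mul_comm]

theorem WS_diag {x : Fin n → ZMod 2} (hx : x ≠ 0) : (WS x x).card = 2 * 2 ^ n := by
  have h1 : (WS x x).card = (({0, x} : Finset (Fin n → ZMod 2)) ×ˢ (univ : Finset (Fin n → ZMod 2))).card := by
    refine card_bij' (fun p _ => (p.1 + p.2, p.2)) (fun p _ => (p.1 + p.2, p.2)) ?_ ?_ ?_ ?_
    · intro p hp
      rw [mem_WS] at hp
      rw [mem_product, mem_insert, mem_singleton, ← one_vec hx]
      refine ⟨fun i j => ?_, mem_univ _⟩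
      have := hp i j
      unfold Wq at this
      simp only [Pi.add_apply]
      linear_combination this
    · intro p hp
      rw [mem_product, mem_insert, mem_singleton, ← one_vec hx] at hp
      rw [mem_WS]
      intro i j
      have := hp.1 i j
      unfold Wq
      simp only [Pi.add_apply]
      linear_combination this + (p.2 i * x j + p.2 j * x i) * two0
    · intro p _
      ext i
      · simp only [Pi.add_apply]
        linear_combination p.2 i * two0
      · rfl
    · intro p _
      ext i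
      · simp only [Pi.add_apply]
        linear_combination p.2 i * two0
      · rfl
  rw [h1, card_product, card_pair_zero hx, card_fn]

theorem minor {x y : Fin n → ZMod 2} (hx : x ≠ 0) (hy : y ≠ 0) (hxy : x ≠ y) :
    ∃ i j, x i * y j + x j * y i = 1 := by
  by_contra h
  push Not at h
  have h1 : ∀ i j, x i * y j + x j * y i = 0 := fun i j => (zo _).resolve_right (h i j)
  rcases (one_vec hy).1 h1 with h2 | h2
  · exact hx h2
  · exact hxy h2

theorem WS_ind {x y : Fin n → ZMod 2} (hx : x ≠ 0) (hy : y ≠ 0) (hxy : x ≠ y) : (WS x y).card = 8 := by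
  obtain ⟨i, j, hm⟩ := minor hx hy hxy
  have h1 : (WS x y).card = (univ : Finset (ZMod 2 × ZMod 2 × ZMod 2)).card := by
    refine card_bij' (fun p _ => (y j * p.1 i + y i * p.1 j, x j * p.1 i + x i * p.1 j,
        x j * p.2 i + x i * p.2 j))
      (fun t _ => ((fun k => t.1 * x k + t.2.1 * y k), (fun k => t.2.1 * x k + t.2.2 * y k)))
      ?_ ?_ ?_ ?_
    · intro p _
      exact mem_univ _
    · intro t _
      rw [mem_WS]
      intro k l
      unfold Wq
      simp only
      linear_combination (t.1 * x k * x l + t.2.1 * y k * x l + t.2.1 * y l * x k +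
        t.2.2 * y k * y l) * two0
    · intro p hp
      rw [mem_WS] at hp
      have hb : x j * p.1 i + x i * p.1 j = y j * p.2 i + y i * p.2 j := by
        have := hp i j
        unfold Wq at this
        linear_combination this - (y j * p.2 i + y i * p.2 j) * two0
      ext k
      · have e1 := hp k i
        have e2 := hp k j
        have e3 := hp i j
        unfold Wq at e1 e2 e3
        simp only
        linear_combination y j * e1 + y i * e2 + y k * e3 - p.1 k * hm -
          (p.1 k + p.2 k * y i * y j + p.2 i * y k * y j + p.2 j * y k * y i) * two0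
      · have e1 := hp k i
        have e2 := hp k j
        have e3 := hp i j
        unfold Wq at e1 e2 e3
        simp only
        linear_combination x k * hb + x j * e1 + x i * e2 + x k * e3 - p.2 k * hm -
          (p.2 k + p.1 k * x i * x j + x k * (p.1 i * x j + p.1 j * x i)) * two0
    · intro t _
      ext
      · simp only
        linear_combination t.1 * hm + t.2.1 * y i * y j * two0
      · simp only
        linear_combination t.2.1 * hm + t.1 * x i * x j * two0
      · simp only
        linear_combination t.2.2 * hm + t.2.1 * x i * x j * two0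
  rw [h1]
  rfl

/-! ### the sum -/

theorem WS_card (x y : Fin n → ZMod 2) : ((WS x y).card : ℝ) =
    if x = 0 then 2 * 2 ^ n + (if y = 0 then 4 ^ n - 2 * 2 ^ n else 0)
    else 8 + (if y = 0 then 2 * 2 ^ n - 8 else 0) + (if y = x then 2 * 2 ^ n - 8 else 0) := by
  by_cases hx : x = 0
  · rw [if_pos hx, hx]
    by_cases hy : y = 0
    · rw [if_pos hy, hy, WS_zero]
      push_cast
      ring
    · rw [if_neg hy, WS_right hy]
      push_cast
      ring
  · rw [if_neg hx]
    by_cases hy : y = 0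
    · rw [if_pos hy, if_neg (by rw [hy]; exact Ne.symm hx), hy, WS_left hx]
      push_cast
      ring
    · rw [if_neg hy]
      by_cases hxy : y = x
      · rw [if_pos hxy, hxy, WS_diag hx]
        push_cast
        ring
      · rw [if_neg hxy, WS_ind hx hy (Ne.symm hxy)]
        norm_num

theorem WS_total (n : ℕ) : ∑ x : Fin n → ZMod 2, ∑ y : Fin n → ZMod 2, ((WS x y).card : ℝ) =
    15 * 4 ^ n - 30 * 2 ^ n + 16 := by
  have h4 : (4 : ℝ) ^ n = 2 ^ n * 2 ^ n := by
    rw [← mul_pow]; norm_num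
  have h1 : ∀ x : Fin n → ZMod 2, ∑ y : Fin n → ZMod 2, ((WS x y).card : ℝ) =
      (12 * 2 ^ n - 16) + (if x = 0 then 3 * 4 ^ n - 14 * 2 ^ n + 16 else 0) := by
    intro x
    simp only [WS_card]
    by_cases hx : x = 0
    · simp only [if_pos hx]
      rw [sum_add_distrib, sum_const, sum_ite_eq' univ (0 : Fin n → ZMod 2), if_pos (mem_univ _),
        card_fn, nsmul_eq_mul]
      push_cast
      rw [h4]
      ring
    · simp only [if_neg hx]
      rw [sum_add_distrib, sum_add_distrib, sum_const, sum_ite_eq' univ (0 : Fin n → ZMod 2),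
        sum_ite_eq' univ x, if_pos (mem_univ _), if_pos (mem_univ _), card_fn, nsmul_eq_mul]
      push_cast
      ring
  simp only [h1]
  rw [sum_add_distrib, sum_const, sum_ite_eq' univ (0 : Fin n → ZMod 2), if_pos (mem_univ _),
    card_fn, nsmul_eq_mul]
  push_cast
  rw [h4]
  ring

/-- SLA-ALT4: the second moment. -/
theorem t_ALT4 : Pool.Agent.N637.SLM.S_ALT4 := by
  intro r
  have h := alt_sum r (fun j => 4 ^ j) (fun x => (x : ℝ) ^ 2) (fun j => by
    push_cast
    rw [← pow_mul, mul_comm j 2, pow_mul]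
    norm_num)
  rw [h]
  have h1 : ∑ M ∈ AL r, ((Ke M).card : ℝ) ^ 2 =
      ∑ x : Fin r → ZMod 2, ∑ y : Fin r → ZMod 2,
        (((AL r).filter fun M => x ∈ Ke M ∧ y ∈ Ke M).card : ℝ) := by
    have h3 : ∀ M ∈ AL r, ((Ke M).card : ℝ) ^ 2 =
        ∑ x : Fin r → ZMod 2, ∑ y : Fin r → ZMod 2, if x ∈ Ke M ∧ y ∈ Ke M then (1 : ℝ) else 0 := by
      intro M _
      have h4 : ((Ke M).card : ℝ) = ∑ x : Fin r → ZMod 2, if x ∈ Ke M then (1 : ℝ) else 0 := by
        rw [sum_ite_mem, univ_inter, sum_const, nsmul_eq_mul, mul_one]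
      rw [pow_two]
      nth_rewrite 1 [h4]
      rw [sum_mul]
      refine sum_congr rfl fun x _ => ?_
      rw [h4, mul_sum]
      refine sum_congr rfl fun y _ => ?_
      by_cases hx : x ∈ Ke M <;> by_cases hy : y ∈ Ke M <;> simp [hx, hy]
    rw [sum_congr rfl h3, sum_comm]
    refine sum_congr rfl fun x _ => ?_
    rw [sum_comm]
    refine sum_congr rfl fun y _ => ?_
    rw [card_filter]
    push_cast
    rfl
  have h2 : ∀ x y : Fin r → ZMod 2, (((AL r).filter fun M => x ∈ Ke M ∧ y ∈ Ke M).card : ℝ) =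
      2 ^ (r * (r - 1) / 2) / 4 ^ r * ((WS x y).card : ℝ) := by
    intro x y
    have h5 : (((AL r).filter fun M => x ∈ Ke M ∧ y ∈ Ke M).card : ℝ) * 4 ^ r =
        2 ^ (r * (r - 1) / 2) * (WS x y).card := by exact_mod_cast AL_two x y
    have h6 : (4 : ℝ) ^ r ≠ 0 := by positivity
    rw [div_mul_eq_mul_div, eq_div_iff h6, h5]
  rw [h1]
  simp only [h2, ← mul_sum]
  rw [WS_total]
  have h6 : (4 : ℝ) ^ r ≠ 0 := by positivity
  have h7 : (2 : ℝ) ^ r ≠ 0 := by positivity
  have h8 : (4 : ℝ) ^ r = 2 ^ r * 2 ^ r := by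
    rw [← mul_pow]; norm_num
  rw [h8]
  field_simp

end Pool.Agent.N228.SLA
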